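import Mathlib
set_option autoImplicit false
open Filter

namespace Pool.Agent.Results.MP_5ff22d_lc.NotCongruence

/-- The star-extension of a set of naturals inside the ultrapower of the naturals by `U`. -/
def star {I : Type} (U : Ultrafilter I) (S : Set ℕ) : Set (Germ (U : Filter I) ℕ) :=
  {x | x.LiftPred (· ∈ S)}

/-- The family of all sets whose star-extension contains `x`. -/
def v {I : Type} (U : Ultrafilter I) (x : Germ (U : Filter I) ℕ) : Set (Set ℕ) :=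
  {S | x ∈ star U S}

/-- Upward closed for divisibility. -/
def Up (S : Set ℕ) : Prop := {n | ∃ a ∈ S, a ∣ n} = S

/-- The divisibility preorder on families of sets. -/
def TDvd (F G : Set (Set ℕ)) : Prop := F ∩ {S | Up S} ⊆ G

/-- Mutual divisibility. -/
def Sim (F G : Set (Set ℕ)) : Prop := TDvd F G ∧ TDvd G F

theorem result : ∃ (I : Type) (U : Ultrafilter I) (x y z : Germ (U : Filter I) ℕ),
    Sim (v U x) (v U y) ∧ ¬ Sim (v U (x * z)) (v U (y * z)) := by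
  have hP : (cofinite ⊓ 𝓟 {p : ℕ | p.Prime}).NeBot := by
    rw [inf_principal_neBot_iff]
    intro S hS
    have := Nat.infinite_setOf_prime.diff (mem_cofinite.mp hS)
    obtain ⟨p, hp, hp'⟩ := this.nonempty
    exact ⟨p, not_not.mp hp', hp⟩
  let V : Ultrafilter ℕ := Ultrafilter.of (cofinite ⊓ 𝓟 {p : ℕ | p.Prime})
  have hV : (V : Filter ℕ) ≤ cofinite ⊓ 𝓟 {p : ℕ | p.Prime} := Ultrafilter.of_le _
  have hne : (((V : Filter ℕ) ×ˢ (V : Filter ℕ)) ⊓ 𝓟 {q : ℕ × ℕ | q.1 ≠ q.2}).NeBot := by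
    rw [inf_principal_neBot_iff]
    intro S hS
    obtain ⟨s, hs, t, ht, hst⟩ := mem_prod_iff.mp hS
    obtain ⟨a, ha⟩ := V.nonempty_of_mem hs
    have h1 : ({a}ᶜ : Set ℕ) ∈ (V : Filter ℕ) :=
      (hV.trans inf_le_left) (Set.finite_singleton a).compl_mem_cofinite
    obtain ⟨b, hb, hb'⟩ := V.nonempty_of_mem (inter_mem ht h1)
    exact ⟨(a, b), hst ⟨ha, hb⟩, fun e => hb' e.symm⟩
  let U : Ultrafilter (ℕ × ℕ) :=
    Ultrafilter.of (((V : Filter ℕ) ×ˢ (V : Filter ℕ)) ⊓ 𝓟 {q : ℕ × ℕ | q.1 ≠ q.2})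
  have hU := Ultrafilter.of_le
    (((V : Filter ℕ) ×ˢ (V : Filter ℕ)) ⊓ 𝓟 {q : ℕ × ℕ | q.1 ≠ q.2})
  have h1 : Tendsto Prod.fst (U : Filter (ℕ × ℕ)) V := tendsto_fst.mono_left (hU.trans inf_le_left)
  have h2 : Tendsto Prod.snd (U : Filter (ℕ × ℕ)) V := tendsto_snd.mono_left (hU.trans inf_le_left)
  have e1 : U.map Prod.fst = V := Ultrafilter.coe_le_coe.mp h1
  have e2 : U.map Prod.snd = V := Ultrafilter.coe_le_coe.mp h2
  have hv : v U (Prod.fst : ℕ × ℕ → ℕ) = v U (Prod.snd : ℕ × ℕ → ℕ) := by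
    ext S
    change S ∈ U.map Prod.fst ↔ S ∈ U.map Prod.snd
    rw [e1, e2]
  have hp : ∀ᶠ p in (V : Filter ℕ), p.Prime := (hV.trans inf_le_right) (mem_principal_self _)
  refine ⟨ℕ × ℕ, U, (Prod.fst : ℕ × ℕ → ℕ), (Prod.snd : ℕ × ℕ → ℕ), (Prod.fst : ℕ × ℕ → ℕ),
    ?_, ?_⟩
  · rw [hv]; exact ⟨Set.inter_subset_left, Set.inter_subset_left⟩
  · intro h
    have hup : Up {n | ¬ Squarefree n} := by
      ext n; constructor
      · rintro ⟨a, ha, han⟩ hn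
        exact ha (hn.squarefree_of_dvd han)
      · intro hn; exact ⟨n, hn, dvd_rfl⟩
    have h3 : ∀ᶠ q in (U : Filter (ℕ × ℕ)), ¬ Squarefree (q.1 * q.1) :=
      (h1.eventually hp).mono (fun q hq hs => hq.prime.not_unit (hs q.1 dvd_rfl))
    have h4 : ∀ᶠ q in (U : Filter (ℕ × ℕ)), ¬ Squarefree (q.2 * q.1) := h.1 ⟨h3, hup⟩
    have h5 : ∀ᶠ q in (U : Filter (ℕ × ℕ)), q.1 ≠ q.2 :=
      (hU.trans inf_le_right) (mem_principal_self _)
    obtain ⟨q, a1, a2, a3, a4⟩ :=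
      (h4.and (h5.and ((h1.eventually hp).and (h2.eventually hp)))).exists
    exact a1 (Nat.squarefree_mul_iff.mpr ⟨(Nat.coprime_primes a4 a3).mpr a2.symm,
      a4.squarefree, a3.squarefree⟩)

end Pool.Agent.Results.MP_5ff22d_lc.NotCongruence
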